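import Pool.Agent.N805.JG.Stm

/-!
# Project JG: products have bounded moments (helper765)
-/

set_option autoImplicit false

open MeasureTheory Filter Topology

namespace Pool.Agent.N765.JG

theorem two_pow_bound (t : ℝ) (ht : 0 ≤ t) (n : ℕ) : (1 + t) ^ n ≤ 2 ^ n * (1 + t ^ n) := by
  have h2 : (0 : ℝ) < 2 ^ n := by positivity
  have htn : 0 ≤ t ^ n := by positivity
  rcases le_total t 1 with h | h
  · calc (1 + t) ^ n ≤ 2 ^ n := pow_le_pow_left₀ (by linarith) (by linarith) n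
      _ ≤ 2 ^ n * (1 + t ^ n) := by nlinarith
  · calc (1 + t) ^ n ≤ (2 * t) ^ n := pow_le_pow_left₀ (by linarith) (by linarith) n
      _ = 2 ^ n * t ^ n := by rw [mul_pow]
      _ ≤ 2 ^ n * (1 + t ^ n) := by nlinarith

theorem prod_bound (I : Finset ℕ) (k : ℕ) (t : ℕ → ℝ) (ht : ∀ i ∈ I, 0 ≤ t i) :
    ∏ i ∈ I, (1 + t i) ^ k ≤ 1 + ∑ i ∈ I, 2 ^ (k * I.card) * (1 + t i ^ (k * I.card)) := by
  rcases I.eq_empty_or_nonempty with h | h
  · subst h; simp
  · obtain ⟨j, hj, hmax⟩ := I.exists_max_image t h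
    have h1 : ∏ i ∈ I, (1 + t i) ^ k ≤ ∏ _i ∈ I, (1 + t j) ^ k := by
      refine Finset.prod_le_prod (fun i hi => ?_) (fun i hi => ?_)
      · have := ht i hi
        positivity
      · have := ht i hi
        exact pow_le_pow_left₀ (by linarith) (by linarith [hmax i hi]) k
    rw [Finset.prod_const, ← pow_mul] at h1
    have h2 := h1.trans (two_pow_bound (t j) (ht j hj) (k * I.card))
    have h3 : 2 ^ (k * I.card) * (1 + t j ^ (k * I.card)) ≤
        ∑ i ∈ I, 2 ^ (k * I.card) * (1 + t i ^ (k * I.card)) := by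
      refine Finset.single_le_sum (f := fun i => (2 : ℝ) ^ (k * I.card) * (1 + t i ^ (k * I.card)))
        (fun i hi => ?_) hj
      have := ht i hi
      positivity
    linarith

theorem INT : Pool.Agent.N805.JG.S_INT := by
  intro ι L P hP I k
  have hae : ∀ j, ∀ᵐ x ∂(P j), ∏ i ∈ I, (1 + |x i|) ^ k ≤
      1 + ∑ i ∈ I, 2 ^ (k * I.card) * (1 + x i ^ (k * I.card)) := by
    intro j
    have h : ∀ᵐ x ∂(P j), ∀ i, 0 ≤ x i := ae_all_iff.2 fun i => hP.nn j i
    filter_upwards [h] with x hx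
    have h1 := prod_bound I k (fun i => x i) (fun i _ => hx i)
    have h2 : ∏ i ∈ I, (1 + |x i|) ^ k = ∏ i ∈ I, (1 + x i) ^ k :=
      Finset.prod_congr rfl fun i _ => by rw [abs_of_nonneg (hx i)]
    rw [h2]
    exact h1
  have hint : ∀ j, Integrable (fun x : ℕ → ℝ =>
      1 + ∑ i ∈ I, 2 ^ (k * I.card) * (1 + x i ^ (k * I.card))) (P j) := by
    intro j
    have := hP.prob j
    refine (integrable_const _).add (integrable_finsetSum _ fun i _ => ?_)
    exact ((integrable_const _).add (hP.int j i _)).const_mul _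
  have hmeas : Measurable (fun x : ℕ → ℝ => ∏ i ∈ I, (1 + |x i|) ^ k) := by
    fun_prop
  have hI : ∀ j, Integrable (fun x : ℕ → ℝ => ∏ i ∈ I, (1 + |x i|) ^ k) (P j) := by
    intro j
    refine (hint j).mono' hmeas.aestronglyMeasurable ?_
    filter_upwards [hae j] with x hx
    rw [Real.norm_of_nonneg (Finset.prod_nonneg fun i _ => by positivity)]
    exact hx
  refine ⟨hI, ?_⟩
  choose C hC using fun i => hP.mom i (k * I.card)
  refine ⟨1 + ∑ i ∈ I, 2 ^ (k * I.card) * (1 + C i), ?_⟩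
  have hall : ∀ᶠ j in L, ∀ i ∈ I, ∫ x, x i ^ (k * I.card) ∂(P j) ≤ C i :=
    (Filter.eventually_all_finset I).2 fun i _ => hC i
  filter_upwards [hall] with j hj
  have := hP.prob j
  refine (integral_mono_ae (hI j) (hint j) (hae j)).trans ?_
  have e1 : ∫ x : ℕ → ℝ, (1 + ∑ i ∈ I, 2 ^ (k * I.card) * (1 + x i ^ (k * I.card))) ∂(P j) =
      1 + ∑ i ∈ I, 2 ^ (k * I.card) * (1 + ∫ x : ℕ → ℝ, x i ^ (k * I.card) ∂(P j)) := by
    have hi : ∀ i ∈ I, Integrable (fun x : ℕ → ℝ =>
        (2 : ℝ) ^ (k * I.card) * (1 + x i ^ (k * I.card))) (P j) := fun i _ =>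
      ((integrable_const _).add (hP.int j i _)).const_mul _
    rw [integral_add (integrable_const _) (integrable_finsetSum _ hi)]
    rw [integral_finsetSum _ hi]
    congr 1
    · simp
    · refine Finset.sum_congr rfl fun i _ => ?_
      rw [integral_const_mul, integral_add (integrable_const _) (hP.int j i _)]
      simp
  rw [e1]
  have h3 : ∑ i ∈ I, (2 : ℝ) ^ (k * I.card) * (1 + ∫ x : ℕ → ℝ, x i ^ (k * I.card) ∂(P j)) ≤
      ∑ i ∈ I, 2 ^ (k * I.card) * (1 + C i) := by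
    refine Finset.sum_le_sum fun i hi => ?_
    have := hj i hi
    gcongr
  linarith

end Pool.Agent.N765.JG
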